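import Pool.Agent.H.MP_66fdf3_co.A

namespace Pool.Agent.Results.MP_66fdf3_co.Comm
open Pool.Agent.H.MP_66fdf3_co Function

def iD : DihedralGroup 4 → ℕ
  | .r i => i.val
  | .sr i => 4 + i.val
def eD (n : ℕ) : DihedralGroup 4 := if n < 4 then .r n else .sr (n - 4 : ℕ)
def iQ : QuaternionGroup 2 → ℕ
  | .a i => i.val
  | .xa i => 4 + i.val
def eQ (n : ℕ) : QuaternionGroup 2 := if n < 4 then .a n else .xa (n - 4 : ℕ)
def tD : List (List ℕ) := [[0, 1, 2, 3, 4, 5, 6, 7], [6, 4, 1, 7, 3, 2, 0, 5],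
  [2, 5, 0, 4, 7, 6, 1, 3], [7, 6, 3, 5, 2, 1, 4, 0], [5, 7, 4, 2, 1, 0, 3, 6],
  [4, 2, 5, 6, 0, 3, 7, 1], [3, 0, 7, 1, 6, 4, 5, 2], [1, 3, 6, 0, 5, 7, 2, 4]]
def tQ : List (List ℕ) := [[0, 1, 2, 3, 4, 5, 6, 7], [5, 3, 1, 4, 6, 0, 7, 2],
  [2, 6, 0, 7, 1, 4, 5, 3], [7, 5, 4, 6, 2, 3, 0, 1], [6, 4, 7, 1, 5, 2, 3, 0],
  [1, 0, 5, 2, 3, 7, 4, 6], [4, 2, 3, 0, 7, 6, 1, 5], [3, 7, 6, 5, 0, 1, 2, 4]]
def th (n : ℕ) : ℕ := [0, 1, 4, 7, 3, 6, 5, 2].getD n 0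

theorem hD : CM (DihedralGroup 4) ∧ NOM fun x y => eD ((tD.getD (iD x) []).getD (iD y) 0) := by
  refine ⟨⟨fun x => eD (th (iD x)), by decide +kernel, by decide +kernel⟩, by decide +kernel,
    by decide +kernel, ⟨eD 0, eD 2, eD 0, eD 2, by decide, by decide, by decide, by decide,
      by decide, by decide, rfl⟩, ?_⟩
  rw [Set.ncard_eq_toFinset_card', Set.toFinset_range, Nat.card_eq_fintype_card]
  decide +kernel

theorem hQ : CM (QuaternionGroup 2) ∧ NOM fun x y => eQ ((tQ.getD (iQ x) []).getD (iQ y) 0) := by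
  refine ⟨⟨fun x => eQ (th (iQ x)), by decide +kernel, by decide +kernel⟩, by decide +kernel,
    by decide +kernel, ⟨eQ 0, eQ 2, eQ 0, eQ 2, by decide, by decide, by decide, by decide,
      by decide, by decide, rfl⟩, ?_⟩
  rw [Set.ncard_eq_toFinset_card', Set.toFinset_range, Nat.card_eq_fintype_card]
  decide +kernel

/-- (1) A finite group of order `> 2` with a near-orthogonal mate has a commutator subgroup of
even order.  (2) Near-orthogonal mates pass to semidirect products `N ⋊ H` when `N`, `H` have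
complete mappings.  (3) For every finite group `N` of odd order, every `N ⋊ D₈` and every
`N ⋊ Q₈` has a near-orthogonal mate. -/
theorem result :
    (∀ (G : Type) [Group G] [Finite G], 2 < Nat.card G → (∃ M : G → G → G, NOM M) →
      Even (Nat.card (commutator G))) ∧
    (∀ (N H : Type) [Group N] [Group H] [Finite N] [Finite H] (φ : H →* MulAut N), CM N → CM H →
      (∃ M : H → H → H, NOM M) → ∃ M : N ⋊[φ] H → N ⋊[φ] H → N ⋊[φ] H, NOM M) ∧
    (∀ (N : Type) [Group N] [Finite N], Odd (Nat.card N) →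
      (∀ φ : DihedralGroup 4 →* MulAut N, ∃ M : N ⋊[φ] _ → N ⋊[φ] _ → N ⋊[φ] _, NOM M) ∧
      (∀ φ : QuaternionGroup 2 →* MulAut N, ∃ M : N ⋊[φ] _ → N ⋊[φ] _ → N ⋊[φ] _, NOM M)) := by
  refine ⟨fun G _ _ h ⟨_, hM⟩ => nec h hM, fun N H _ _ _ _ φ a b ⟨_, c⟩ => semi φ a b c,
    fun N _ _ h => ?_⟩
  have : CM N := ⟨id, bijective_id, by
    simpa [sq] using (Nat.Coprime.pow_left_bijective (G := N) (n := 2)
      (Nat.coprime_two_right.2 h))⟩
  exact ⟨fun φ => semi φ this hD.1 hD.2, fun φ => semi φ this hQ.1 hQ.2⟩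

end Pool.Agent.Results.MP_66fdf3_co.Comm
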